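import Pool.Agent.Helper320.PCH.FinB

/-!
# Nonvanishing for pairs in correspondence with products of curves of large gonality

Let `U i = C i \ B i`, `1 ≤ i ≤ n`, be any smooth curves over `ℂ`: `C i` is smooth and projective, and
`B i` is a finite set of points, which may be empty. The gonality of `U i` is the smallest degree of a
nonconstant function on `C i` which vanishes at all points of `B i`, that is of a finite map onto the
affine line of an open subset of `U i` (of a map of `C i` onto the line if `B i` is empty). It is at
least the number of the points of `B i`. Let it be at least `μ i + 2`.

Let `(W, D)` be a smooth projective variety of dimension `n` with a reduced divisor with normal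
crossings, and `X = W \ D`. Let `V` be a variety with dominant rational maps of finite degree to `X` and
to `U = U 1 × ... × U n`, such that a place of `ℂ(V)` with values in `ℤ` and without centre on `U` has no
centre on `X`; for example a subvariety of `X × U` which is proper over `X`, and dominates `X` and `U`.
So `V` is a correspondence between `X` and `U`: `X` need not be dominated by `U`, and nothing is assumed
on the ramification. If there is no boundary (`D = 0` and all `B i` are empty) then `V` may be any
variety with dominant rational maps of finite degree to `W` and to the product of the `C i`.

For a set `S` of factors let `d(S)` be the degree over `X` of the image of `V` in `X × ∏ (i ∈ S) U i`;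
so `d(∅) = 1`.

Simplest case: if for every nonempty set `J` of factors, with complement `J'`,
  `d(all) ≤ d(J') (1 + ∑ (i ∈ J) μ i)`,
then `K_W + D` has a nonzero section. In particular Q1 holds for `(W, D)`. For `n = 1` this is the fact
that a curve with a correspondence of degree less than the gonality with `U 1` is not rational with at
most one boundary point.

In the theorem the factors can moreover be divided into successive blocks: `b i` is the number of the
block of the factor `i`. The condition is
  `d(S) ≤ d(S \ J) (1 + ∑ (i ∈ J) μ i)`
for every block, where `S` is the set of the factors in the blocks up to this one, and all nonempty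
sets `J` of factors in this block. For example, if each block has one factor, then the condition is
that the degree of the image of `V` in `X × U 1 × ... × U k` over its image in
`X × U 1 × ... × U (k - 1)` is less than the gonality of `U k`.

Example. Suppose that all `U i` have gonality at least `c + 2`, and `d(all) ≤ (r + 1) c + 1`. Then
`K_W + D` has a nonzero section unless there is a set `J` of factors, `1 ≤ |J| ≤ r`, with
`d(J') ≤ r / |J|`: the condition holds for all larger sets `J`. For `r = 1` the exception is that `X`
dominates the product of all `U i` but one; then `κ(K_W + D) ≥ 0` or `X` is `A¹`-uniruled by Kawamata's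
theorem on fibrations by curves. (This remark is not part of the Lean statement.)

Proof. Let `L = ℂ(W)` and `K = ℂ(V)`. The traces of the products of logarithmic differentials of the
`(C i, B i)` are sections of `K_W + D`. If they vanish then this is a linear relation between the
evaluations of these products at the conjugates over `L` of the generic point of `V`. By the theorem of
Riemann-Roch the logarithmic differentials separate a point of `C i` from `μ i` other points not in
`B i`; this holds over all extensions of the field of constants, by specialisation. The marriage
theorem of Hall, applied to the conjugates and the coordinates in which they differ from the generic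
point, distributes the zeros such that all terms of the relation vanish but one; the number of the
conjugates which differ only in coordinates in `J` is `d(all) / d(J')`. So the relation cannot hold.

The function-field language of the starting repository is used: `Bd` is the set of the places of `L`
without centre on `X`; a form (`IsPluri 1`) on a variety of dimension `n` is a function of `n` rational
vector fields; `LogSec ℂ L n 1 Bd ω` says that `ω` is a section of `K_W + D`: a form with at most
logarithmic poles at all prime divisors, and regular at those which are not in `Bd`
(`Pool/Agent/W602/GT`). `Over Q P e` says that the place `Q` lies over the place `P`, with ramification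
index `e ≥ 1`.
-/

set_option autoImplicit false
set_option linter.overlappingInstances false

open FF Pool.Agent.W602.GT

namespace Pool.Agent.Results.MP_bc213e_ag.CurveCorrespondences

/-- `F` is the function field of a curve. -/
def IsCurveField (F : Type) [Field F] [Algebra ℂ F] : Prop :=
  Algebra.EssFiniteType ℂ F ∧ Algebra.trdeg ℂ F = 1

/-- The gonality of the open curve with the function field `F` and the boundary `B` is at least `γ`:
all nonconstant functions which vanish at the points of `B` have degree at least `γ`. -/
def GonalityGe (F : Type) [Field F] [Algebra ℂ F] (B : Finset (Place ℂ F)) (γ : ℕ) : Prop :=
  ∀ t : F, Transcendental ℂ t → (∀ P ∈ B, 0 < P.ord t) →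
    γ ≤ Module.finrank (IntermediateField.adjoin ℂ {t}) F

/-- The places which lie over a boundary point of one of the open curves, that is the places without
centre on `U`. -/
def Boundary {K : Type} [Field K] [Algebra ℂ K] {n : ℕ} (F : Fin n → IntermediateField ℂ K)
    (B : ∀ i, Finset (Place ℂ (F i))) (Q : Place ℂ K) : Prop :=
  ∃ i, ∃ p ∈ B i, ∃ e : ℕ, Over Q p e

/-- The degree `d(S)` over `X` of the image of `V` in the product of `X` and the curves with the
function fields `F i`, `i ∈ S`: the degree over `L` of the compositum of `L` and these fields. -/
noncomputable def imageDegree {K : Type} [Field K] [Algebra ℂ K] (L : Type) [Field L]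
    [Algebra L K] {n : ℕ} (F : Fin n → IntermediateField ℂ K) (S : Finset (Fin n)) : ℕ :=
  Module.finrank L (IntermediateField.adjoin L (⋃ i ∈ S, (F i : Set K)))

/-- **Correspondences with products of open curves.** Let `V` be a variety of dimension `n` with
function field `K`, with a dominant rational map of finite degree to the product `U` of `n` open curves
with the function fields `F i` and the boundaries `B i`, of gonality at least `μ i + 2`, and with a
dominant rational map of finite degree to a smooth variety `X = W \ D` with function field `L` and
boundary `Bd`, such that the places of `K` in the boundary of `U` lie over places in `Bd`. Let the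
factors be divided into blocks by `b`, such that for all `k` and all nonempty sets `J` of factors in the
block `k`, `d({i | b i ≤ k}) ≤ d({i | b i ≤ k} \ J) (1 + ∑ (i ∈ J) μ i)`. Then `K_W + D` has a nonzero
section. -/
theorem result {n : ℕ} {K : Type} [Field K] [Algebra ℂ K] [Algebra.EssFiniteType ℂ K]
    (hK : Algebra.trdeg ℂ K = n) (F : Fin n → IntermediateField ℂ K)
    (hF : ∀ i, IsCurveField (F i))
    (halg : Algebra.IsAlgebraic (⨆ i, F i : IntermediateField ℂ K) K)
    (B : ∀ i, Finset (Place ℂ (F i)))
    (μ : Fin n → ℕ) (hμ : ∀ i, GonalityGe (F i) (B i) (μ i + 2))
    (L : Type) [Field L] [Algebra ℂ L] [Algebra L K] [IsScalarTower ℂ L K]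
    [FiniteDimensional L K] (Bd : Place ℂ L → Prop)
    (hBd : ∀ (P : Place ℂ L) (Q : Place ℂ K) (e : ℕ), Over Q P e → Boundary F B Q → Bd P)
    (b : Fin n → ℕ)
    (h : ∀ (k : ℕ) (J : Finset (Fin n)), J.Nonempty → (∀ i ∈ J, b i = k) →
      imageDegree L F (Finset.univ.filter fun i => b i ≤ k) ≤
        imageDegree L F (Finset.univ.filter fun i => b i ≤ k ∧ i ∉ J) * (∑ i ∈ J, μ i + 1)) :
    ∃ ω : (Fin n → Derivation ℂ L L) → L, LogSec ℂ L n 1 Bd ω ∧ ∃ D, ω D ≠ 0 :=
  have _hFF : ∀ i, IsFF ℂ (F i) := fun i => ⟨(hF i).1, (hF i).2⟩
  Pool.Agent.Helper320.PCH.secV hK F B (fun z => halg.isAlgebraic z) L b μ hμ Bd hBd h

end Pool.Agent.Results.MP_bc213e_ag.CurveCorrespondences
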