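import Pool.Agent.H614.KL.Nonv

/-!
# Effective nonvanishing for pairs which are images under maps of degree at most `2 m + 1`

Let `(W, Δ)` be a projective pair of dimension `n`, with a normal variety `W` and a `ℚ`-divisor `Δ ≥ 0`,
for instance a log canonical pair. Let `f : V → W` be a finite covering (or a dominant rational map of
finite degree, and `V` the normalisation of `W` in its function field), and `V ⇢ Y` a rational map onto a
variety `Y` in projective space, with `H` the pull-back of the hyperplane class. Suppose that, for some
`r ≥ 0`, some section of

  `K_V + f^* (⌊r (K_W + Δ)⌋ - K_W) - m H`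

has nonzero trace to the image `W'` of `V` in `W × Y`, and that the degree `s` of `W'` over `W` is at most
`2 m + 1`. (If `V` is birational to `W'`, the conditions say that there is a nonzero section, and
`deg f ≤ 2 m + 1`.)

(1) Then `⌊r (K_W + Δ)⌋` has a nonzero section, or `s ≥ m + 2` and the points of `Y` over the general
point of `W` are collinear.

(2) If `Y` is cut out (as a set) by forms of degree at most `m + 1` and is not covered by lines, then
`⌊r (K_W + Δ)⌋` has a nonzero section. In particular nonvanishing, `κ(K_W + Δ) ≥ 0`, holds for `(W, Δ)`;
it is not assumed that `K_W + Δ` is nef.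

Examples. Let `V = Y` be a smooth complete intersection of hypersurfaces of degrees `d_1, …, d_c` in a
projective space of dimension `n + c`, and `m = d_1 + … + d_c - n - c - 1 ≥ max d_i - 1` (so `c ≥ 2`).
Then `K_W` is effective for all smooth projective varieties `W` with a dominant rational map `V ⇢ W` of
degree at most `2 m + 1`. This is sharp: the intersection `V` of a smooth cubic surface in `3`-space, which
contains a line, with another cubic surface has `m = 2`, and the planes through the line define a map of
`V` to the projective line of degree `6 = 2 m + 2` (the fibres are on conics). For fractional boundaries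
let `D ⊂ W` be a reduced divisor which contains the branch divisor, `Δ = (1 - 1/r) D`, and `D_V` the
reduced preimage of `D`; then the class above is `r (K_V + (1 - 1/r) D_V) - m H`. If `V = Y` is a smooth
hypersurface of degree `b` and dimension `n`, this has sections for `m = r (b - n - 2)`, and so
`κ(K_W + (1 - 1/r) D) ≥ 0` if `deg f ≤ 2 r (b - n - 2) + 1` and `b ≤ r (b - n - 2) + 1`. One cannot expect more than
`κ ≥ 0` for degrees larger than `m`: if `r - 1` divides `n + 1`, `b = r (n + 1) / (r - 1)`, and `W` is the
projective space with a smooth hypersurface `D` of degree `b`, `V` the cyclic covering of degree `b`, then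
`m = b - 1`, `deg f = m + 1` and `K_W + Δ = 0`. (These remarks are not part of the Lean statement.)

For `s ≤ m + 1` and a reduced boundary (`r = 1`) nonvanishing is the idea of
`MP_bc213e_ag.ImagesOfPairs`; here the range for the degree is doubled, and `Δ` can be fractional.

Proof: the traces on `W` of the forms `A(x) ω`, where `A` is a polynomial of degree `m`, are sections of
`⌊r (K_W + Δ)⌋`. If they vanish, the points `x_1, …, x_s` of `Y` over the general point of `W` satisfy the
Cayley–Bacharach condition for the forms of degree `m`; since `s ≤ 2 m + 1`, they are at least `m + 2`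
points on a line. The forms of degree at most `m + 1` which vanish on `Y` vanish on this line. So the line
is in `Y`, and these lines cover `Y`.

The literal definitions of the starting repository (`Pool/Agent/Y172/Defs.lean`) are used: `y` is the
generic point of `W` (`NormalModel`), the prime divisors of `W` are the places `P` of its function field
`L` with `IsPrimeDivisor y P`, a `ℚ`-divisor is a function `Δ` of the places, and `IsSection y n r (r • Δ) η`
says that `η` is a section of `r (K_W + Δ)`: an `r`-canonical form whose order is at least `- r Δ P` along
all `P`. `K` is the function field of `V`, and `Over Q P e` says that the place `Q` of `K` lies over `P`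
with ramification index `e`.
-/

set_option autoImplicit false
set_option linter.overlappingInstances false

open FF Pool.Agent.W602.GT Pool.Agent.Y172

namespace Pool.Agent.Results.MP_bc213e_ag.ImagesInDoubleRange

section

variable {K : Type} [Field K] [Algebra ℂ K] {n N : ℕ}

/-- `K` is the function field of a variety `V` of dimension `n`, and `x` is the generic point of a
variety `Y` in projective space with `N` homogeneous coordinates (one of them is normalised to `1`), the
image of `V` under a rational map. -/
structure IsMap (n : ℕ) (x : Fin N → K) : Prop where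
  ess : Algebra.EssFiniteType ℂ K
  dim : Algebra.trdeg ℂ K = n
  one : ∃ j, x j = 1

/-- The trace of the `r`-canonical form `ω` to the variety with the function field `F` is not zero. The
value of the trace of `ω` on vector fields `D i` of `F` is the trace of the value of `ω` on the
extensions `D' i` of the `D i` to `K`. -/
def TraceNe (ω : (Fin n → Derivation ℂ K K) → K) (F : IntermediateField ℂ K) : Prop :=
  ∃ (D : Fin n → Derivation ℂ F F) (D' : Fin n → Derivation ℂ K K),
    (∀ i f, D' i (algebraMap F K f) = algebraMap F K (D i f)) ∧
    Algebra.trace F K (ω D') ≠ 0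

/-- `Y` is covered by lines: for some variety `B`, with function field `M`, there is a family over `B`
of lines in projective space, the lines through the points `a` and `b` over `M`, such that the
generic point `a + T b` of the total space of the family is mapped to the generic point `x` of `Y`,
that is, exactly the equations of `Y` vanish at `a + T b`. -/
def CoveredByLines (x : Fin N → K) : Prop :=
  ∃ (M : Type) (_ : Field M) (_ : Algebra ℂ M) (a b : Fin N → M),
    Algebra.EssFiniteType ℂ M ∧ LinearIndependent M ![a, b] ∧
    ∀ F : MvPolynomial (Fin N) ℂ, MvPolynomial.aeval x F = 0 ↔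
      MvPolynomial.aeval (fun j => Polynomial.C (a j) + Polynomial.X * Polynomial.C (b j)) F = 0

/-- `Y` is cut out, as a set, by forms of degree at most `e`: if all forms of degree at most `e` which
vanish on `Y` vanish at a point `q` with coordinates in an extension `κ` of `ℂ`, then `q` is a point of
`Y`. -/
def CutOut (e : ℕ) (x : Fin N → K) : Prop :=
  ∀ (κ : Type) [Field κ] [Algebra ℂ κ] (q : Fin N → κ),
    (∀ (i : ℕ) (F : MvPolynomial (Fin N) ℂ), i ≤ e → F.IsHomogeneous i →
      MvPolynomial.aeval x F = 0 → MvPolynomial.aeval q F = 0) →
    ∀ (i : ℕ) (F : MvPolynomial (Fin N) ℂ), F.IsHomogeneous i →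
      MvPolynomial.aeval x F = 0 → MvPolynomial.aeval q F = 0

end

section

variable {K L : Type} [Field K] [Algebra ℂ K] [Field L] [Algebra ℂ L] [Algebra L K] {n N M : ℕ}

/-- `ω` is a section of `K_V + f^* (⌊r (K_W + Δ)⌋ - K_W) - m H`, where `H` is the pull-back of the
hyperplane class of `Y`. For the `r`-canonical forms on `V` the class is
`r K_V - (r - 1) R + f^* ⌊r Δ⌋ - m H`, where `R` is the ramification divisor: the order of the products
`A(x) ω` at a prime divisor `Q` of `V` over the prime divisor `P` of `W`, with ramification index `e`, is
at least `(r - 1) (e - 1) - e ⌊r Δ P⌋`, for all monomials (hence for all forms) `A` of degree `m`. -/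
def AdjointSection (y : Fin (M + 1) → L) (Δ : Place ℂ L → ℚ) (r m : ℕ) (x : Fin N → K)
    (ω : (Fin n → Derivation ℂ K K) → K) : Prop :=
  IsPluri r ω ∧ ∀ (P : Place ℂ L), IsPrimeDivisor y P → ∀ (Q : Place ℂ K) (e : ℕ), Over Q P e →
    ∀ (f : Fin m → Fin N) (D : Fin n → Derivation ℂ K K), (∀ i, DerReg Q (D i)) →
      (∏ k, x (f k)) * ω D = 0 ∨
        ((r : ℤ) - 1) * ((e : ℤ) - 1) - e * ⌊r * Δ P⌋ ≤ Q.ord ((∏ k, x (f k)) * ω D)

/-- `⌊r (K_W + Δ)⌋` has a nonzero section. -/
def Nonvanishing (y : Fin (M + 1) → L) (n r : ℕ) (Δ : Place ℂ L → ℚ) : Prop :=
  ∃ η : (Fin n → Derivation ℂ L L) → L, IsSection y n r (r • Δ) η ∧ η ≠ 0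

/-- The points of `Y` over the general point of `W`, that is, the conjugates of the generic point `x` of
`Y` over the function field `L` of `W`, are on a line, the line through the points `a` and `b` over
`L`. -/
def Collinear (L : Type) [Field L] [Algebra L K] (x : Fin N → K) : Prop :=
  ∃ (a b : Fin N → L) (τ : K), LinearIndependent L ![a, b] ∧
    ∀ j, x j = algebraMap L K (a j) + τ * algebraMap L K (b j)

end

/-- **Nonvanishing for images under maps of degree at most `2 m + 1`.** Let `W` be a normal projective
variety of dimension `n` with generic point `y` and function field `L`, `Δ` a `ℚ`-divisor on `W`,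
`f : V → W` a finite covering with function field `K`, and `V ⇢ Y` a rational map onto a variety with
generic point `x`. Suppose that some section of `K_V + f^* (⌊r (K_W + Δ)⌋ - K_W) - m H` has nonzero trace
to `L(x)`, and `[L(x) : L] ≤ 2 m + 1`. Then `⌊r (K_W + Δ)⌋` has a nonzero section, or
`[L(x) : L] ≥ m + 2` and the points of `Y` over the general point of `W` are collinear. If `Y` is cut
out by forms of degree at most `m + 1` and is not covered by lines, then `⌊r (K_W + Δ)⌋` has a nonzero
section. -/
theorem result {n m r N M : ℕ} {K : Type} [Field K] [Algebra ℂ K] {x : Fin N → K}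
    (hx : IsMap n x) (L : Type) [Field L] [Algebra ℂ L] [Algebra L K] [IsScalarTower ℂ L K]
    [FiniteDimensional L K] {y : Fin (M + 1) → L} (hy : NormalModel y) {Δ : Place ℂ L → ℚ}
    {ω : (Fin n → Derivation ℂ K K) → K} (hω : AdjointSection y Δ r m x ω)
    (htr : TraceNe ω ((IntermediateField.adjoin L (Set.range x)).restrictScalars ℂ))
    (hdeg : Module.finrank L (IntermediateField.adjoin L (Set.range x)) ≤ 2 * m + 1) :
    (Nonvanishing y n r Δ ∨
      (m + 2 ≤ Module.finrank L (IntermediateField.adjoin L (Set.range x)) ∧ Collinear L x)) ∧
    (CutOut (m + 1) x → ¬ CoveredByLines x → Nonvanishing y n r Δ) := by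
  have hess : Algebra.EssFiniteType ℂ K := hx.ess
  rcases Pool.Agent.H614.KL.nonv hx.dim hx.one hy hω htr hdeg with h | ⟨h1, h2, h3⟩
  · exact ⟨Or.inl h, fun _ _ => h⟩
  · exact ⟨Or.inr ⟨h1, h2⟩, fun hcut hl => absurd (h3 hcut) hl⟩

end Pool.Agent.Results.MP_bc213e_ag.ImagesInDoubleRange
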